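import Pool.Agent.Helper13.TW.StC

/-! # Module ULC of the project TW: uniform local connectedness of the interior -/

set_option autoImplicit false

namespace Pool.Agent.Helper55.TW

open Set Topology Pool.Agent.Helper13.TR Pool.Agent.Helper13.TW

private theorem map_val {S : Type} [TopologicalSpace S] {V₁ : Set S} {A : Set ↥V₁} {B : Set S}
    {x y : ↥V₁} (h : JoinedIn A x y) (hAB : ∀ z ∈ A, (z : S) ∈ B) :
    JoinedIn B (x : S) (y : S) := by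
  obtain ⟨γ, hγ⟩ := h
  refine ⟨γ.map continuous_subtype_val, fun t => ?_⟩
  simp only [Path.map_coe, Function.comp_apply]
  exact hAB _ (hγ t)

private theorem lift_val {S : Type} [TopologicalSpace S] {V₁ : Set S} {x y : S}
    (hx : x ∈ V₁) (hy : y ∈ V₁) (h : JoinedIn V₁ x y) :
    Joined (⟨x, hx⟩ : ↥V₁) ⟨y, hy⟩ := h.joined_subtype

theorem hULC (_hTWO : StTWO) (_hCLS : StCLS) (_hSCL : StSCL) (_hLIN : StLIN) (_hOPN2 : StOPN2)
    (_hLCO : StLCO) : StULC := by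
  intro S _ _ _ ω V hG J hE p hp O hO hpO
  obtain ⟨-, -, -, hsat, -⟩ := _hTWO S ω V hG J hE
  obtain ⟨hcI, hcO, -⟩ := _hCLS S ω V hG J hE
  obtain ⟨a, b, D₁, D₂, hspl, hD₂O, hpD₂, hpa, hpb⟩ := (_hSCL S J hE.1).2.2.1 p hp O hO hpO
  have hspl' := hspl
  obtain ⟨hA₁, hA₂, hint, hun⟩ := hspl
  -- the open set
  set V₁ : Set S := O \ D₁ with hV₁
  have hD₁c : IsClosed D₁ := by
    obtain ⟨γ, -, hγ⟩ := hA₁
    rw [← hγ]
    exact (isCompact_range γ.continuous).isClosed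
  have hV₁o : IsOpen V₁ := hO.sdiff hD₁c
  have ha : a ∈ D₁ ∩ D₂ := by rw [hint]; simp
  have hb : b ∈ D₁ ∩ D₂ := by rw [hint]; simp
  have haV : a ∉ V₁ := fun h => h.2 ha.1
  have hbV : b ∉ V₁ := fun h => h.2 hb.1
  have hsub : D₂ \ {a, b} ⊆ V₁ := by
    intro x hx
    refine ⟨hD₂O hx.1, fun h1 => hx.2 ?_⟩
    rw [← hint]; exact ⟨h1, hx.1⟩
  have hpV : p ∈ V₁ := hsub ⟨hpD₂, by simp [hpa, hpb]⟩
  -- points of V₁ in J
  have hJD : ∀ z : ↥V₁, (z : S) ∈ J ↔ (z : S) ∈ D₂ := by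
    intro z
    rw [← hun]
    constructor
    · rintro (h | h)
      · exact absurd h z.2.2
      · exact h
    · intro h; exact Or.inr h
  obtain ⟨ψ, hψ, hrange⟩ := _hLIN.1 S D₂ V₁ a b hA₂ hsub haV hbV
  have hrg : ∀ z : ↥V₁, z ∈ range ψ ↔ (z : S) ∈ J := by
    intro z
    rw [hrange, mem_preimage, hJD]
  have : LocallyPathConnectedSpace ↥V₁ := hV₁o.locallyPathConnectedSpace
  have hWS := _hOPN2 S ω V₁ hG.ws hV₁o
  -- the saturated set
  set T : Set ↥V₁ := {z | (z : S) ∈ Ins ω J} with hT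
  have hTsat : ∀ c d : ↥V₁, JoinedIn (range ψ)ᶜ c d → (c ∈ T ↔ d ∈ T) := by
    intro c d hcd
    exact hsat _ _ (map_val hcd fun z hz hzJ => hz ((hrg z).2 hzJ))
  have hO'o : IsOpen (pathComponentIn V₁ p) := hV₁o.pathComponentIn p
  have hpO' : p ∈ pathComponentIn V₁ p := mem_pathComponentIn_self hpV
  have hO'V : pathComponentIn V₁ p ⊆ V₁ := pathComponentIn_subset
  have hjoin : ∀ x ∈ pathComponentIn V₁ p, ∀ y ∈ pathComponentIn V₁ p, JoinedIn V₁ x y := by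
    intro x hx y hy
    exact JoinedIn.trans (JoinedIn.symm hx) hy
  obtain ⟨c, hcO', hcI'⟩ := mem_closure_iff.1 (hcI hp) _ hO'o hpO'
  obtain ⟨d, hdO', hdI'⟩ := mem_closure_iff.1 (hcO hp) _ hO'o hpO'
  have hIJ : ∀ z ∈ Ins ω J, z ∉ J := fun z hz => hz.1
  have hdJ : d ∉ J := fun h => hdI' (Or.inl h)
  have hdI : d ∉ Ins ω J := fun h => hdI' (Or.inr h)
  refine ⟨pathComponentIn V₁ p, hO'o, hpO', fun z hz => (hO'V hz).1, ?_⟩
  rintro x ⟨hxO', hxI⟩ y ⟨hyO', hyI⟩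
  have hex : ∃ c d : ↥V₁, c ∉ range ψ ∧ d ∉ range ψ ∧ c ∈ T ∧ d ∉ T ∧ Joined c d :=
    ⟨⟨c, hO'V hcO'⟩, ⟨d, hO'V hdO'⟩, fun h => hIJ c hcI' ((hrg _).1 h),
      fun h => hdJ ((hrg _).1 h), hcI', hdI, lift_val _ _ (hjoin c hcO' d hdO')⟩
  have hxy := _hLCO ↥V₁ _ hWS ψ hψ T hTsat hex ⟨x, hO'V hxO'⟩ ⟨y, hO'V hyO'⟩
    (fun h => hIJ x hxI ((hrg _).1 h)) (fun h => hIJ y hyI ((hrg _).1 h))
    (lift_val _ _ (hjoin x hxO' y hyO')) ⟨fun _ => hyI, fun _ => hxI⟩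
  obtain ⟨γ, hγ⟩ := hxy
  refine ⟨γ.map continuous_subtype_val, fun t => ?_⟩
  simp only [Path.map_coe, Function.comp_apply]
  refine ⟨(γ t).2.1, ?_⟩
  have h1 : JoinedIn (range ψ)ᶜ (⟨x, hO'V hxO'⟩ : ↥V₁) (γ t) := by
    have : PathConnectedSpace unitInterval :=
      isPathConnected_iff_pathConnectedSpace.1
        ((convex_Icc (0 : ℝ) 1).isPathConnected ⟨0, by simp⟩)
    have h2 : JoinedIn (range γ) (γ 0) (γ t) :=
      (isPathConnected_range γ.continuous).joinedIn _ (mem_range_self 0) _ (mem_range_self t)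
    rw [γ.source] at h2
    refine h2.mono ?_
    rintro _ ⟨s, rfl⟩
    exact hγ s
  exact (hTsat _ _ h1).1 hxI

end Pool.Agent.Helper55.TW
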