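import Pool.Agent.Helper31.TW.St1

/-!
# Project TW, module PKL: many loops in long derivations
-/

set_option autoImplicit false

namespace Pool.Agent.Helper55.TW

open Pool.Agent.Helper31.TW Symbol

variable {T N : Type}

/-- chains of states -/
private inductive Ch (R : Set (ContextFreeRule T N)) : List (List (Symbol T N)) →
    Set (List (Symbol T N)) → List (Symbol T N) → List T → Prop
  | nil {U : Set (List (Symbol T N))} {α : List (Symbol T N)} {w : List T} :
      DU R U α w → Ch R [] U α w
  | skip {l : List (List (Symbol T N))} {W U : Set (List (Symbol T N))}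
      {α α' : List (Symbol T N)} {u z w : List T} :
      RU R W α u z α' → Ch R l U α' w → Ch R l (W ∪ U) α (u ++ w ++ z)
  | mark {l : List (List (Symbol T N))} {W U : Set (List (Symbol T N))}
      {α α' : List (Symbol T N)} {u z w : List T} :
      RU R W α u z α' → 1 ≤ u.length + z.length → Ch R l U α' w →
      Ch R (α :: l) (W ∪ U) α (u ++ w ++ z)

private theorem sts_finite (R : Set (ContextFreeRule T N)) (X : N) (hR : R.Finite) :
    (Sts R X).Finite := by
  refine Set.Finite.insert _ (Set.Finite.insert _ (hR.biUnion fun r _ => ?_))
  refine (List.finite_toSet r.output.tails).subset fun α hα => ?_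
  exact (List.mem_tails _ _).2 hα

private theorem sts_tail (R : Set (ContextFreeRule T N)) (X : N) {a : Symbol T N}
    {α : List (Symbol T N)} (h : a :: α ∈ Sts R X) : α ∈ Sts R X := by
  rcases h with h | h | h
  · right; left
    exact (List.cons.inj h).2
  · exact absurd h (List.cons_ne_nil _ _)
  · right; right
    simp only [Set.mem_iUnion, Set.mem_ofPred_eq] at h ⊢
    obtain ⟨r, hr, h⟩ := h
    exact ⟨r, hr, (List.suffix_cons a α).trans h⟩

private theorem sts_output (R : Set (ContextFreeRule T N)) (X : N) {r : ContextFreeRule T N}
    (h : r ∈ R) : r.output ∈ Sts R X := by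
  right; right
  simp only [Set.mem_iUnion, Set.mem_ofPred_eq]
  exact ⟨r, h, List.suffix_refl _⟩

private theorem ru_term (R : Set (ContextFreeRule T N)) (t : T) (α : List (Symbol T N)) :
    RU R {terminal t :: α} (terminal t :: α) [t] [] α := by
  intro U x h
  have := DU.term t h
  rw [Set.singleton_union]
  simpa using this

private theorem ru_right (R : Set (ContextFreeRule T N)) {r : ContextFreeRule T N}
    {U : Set (List (Symbol T N))} {u : List T} (α : List (Symbol T N)) (hr : r ∈ R)
    (hu : DU R U r.output u) :
    RU R (insert (nonterminal r.input :: α) U) (nonterminal r.input :: α) u [] α := by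
  intro V x h
  have := DU.nonterm hr hu h
  rw [Set.insert_union, List.append_nil]
  exact this

private theorem ru_left (R : Set (ContextFreeRule T N)) {r : ContextFreeRule T N}
    {V : Set (List (Symbol T N))} {w : List T} {α : List (Symbol T N)} (hr : r ∈ R)
    (hw : DU R V α w) :
    RU R (insert (nonterminal r.input :: α) V) (nonterminal r.input :: α) [] w r.output := by
  intro U x h
  have := DU.nonterm hr h hw
  rw [Set.insert_union, List.nil_append, Set.union_comm V U]
  exact this

private theorem ru_comp (R : Set (ContextFreeRule T N)) {W W' : Set (List (Symbol T N))}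
    {α β γ : List (Symbol T N)} {u z u' z' : List T} (h : RU R W α u z β)
    (h' : RU R W' β u' z' γ) : RU R (W ∪ W') α (u ++ u') (z' ++ z) γ := by
  intro U x hx
  have := h _ _ (h' _ _ hx)
  rw [Set.union_assoc]
  simpa [List.append_assoc] using this

private theorem ru_nil (R : Set (ContextFreeRule T N)) (α : List (Symbol T N)) :
    RU R ∅ α [] [] α := by
  intro U x h
  simpa using h

private theorem exists_chain (R : Set (ContextFreeRule T N)) (X : N)
    {U : Set (List (Symbol T N))} {α : List (Symbol T N)} {w : List T} (h : DU R U α w) :
    α ∈ Sts R X → ∀ m : ℕ, 2 ^ m ≤ w.length → ∃ l : List (List (Symbol T N)),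
      l.length = m ∧ (∀ β ∈ l, β ∈ Sts R X) ∧ Ch R l U α w := by
  induction h with
  | nil =>
    intro _ m hm
    have := Nat.one_le_two_pow (n := m)
    simp at hm
  | @term t U α w h ih =>
    intro hα m hm
    rcases m with - | m
    · exact ⟨[], rfl, by simp, Ch.nil (DU.term t h)⟩
    · have h1 := Nat.one_le_two_pow (n := m)
      rw [pow_succ, List.length_cons] at hm
      obtain ⟨l, hl, hI, hc⟩ := ih (sts_tail R X hα) m (by omega)
      refine ⟨(terminal t :: α) :: l, by simp [hl], ?_, ?_⟩
      · intro β hβ
        rcases List.mem_cons.1 hβ with rfl | hβ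
        · exact hα
        · exact hI β hβ
      · have := Ch.mark (ru_term R t α) (by simp) hc
        rw [Set.singleton_union] at this
        simpa using this
  | @nonterm r U V α u w hr hu hw ihu ihw =>
    intro hα m hm
    have hout := sts_output R X hr
    have htail := sts_tail R X hα
    have eR : insert (nonterminal r.input :: α) U ∪ V =
        insert (nonterminal r.input :: α) (U ∪ V) := Set.insert_union
    have eL : insert (nonterminal r.input :: α) V ∪ U =
        insert (nonterminal r.input :: α) (U ∪ V) := by
      rw [Set.insert_union, Set.union_comm V U]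
    rcases m with - | m
    · exact ⟨[], rfl, by simp, Ch.nil (DU.nonterm hr hu hw)⟩
    · rw [List.length_append] at hm
      rcases Nat.eq_zero_or_pos u.length with hu0 | hu0
      · obtain ⟨l, hl, hI, hc⟩ := ihw htail (m + 1) (by omega)
        refine ⟨l, hl, hI, ?_⟩
        have := Ch.skip (ru_right R α hr hu) hc
        rw [eR, List.append_nil] at this
        exact this
      · rcases Nat.eq_zero_or_pos w.length with hw0 | hw0
        · obtain ⟨l, hl, hI, hc⟩ := ihu hout (m + 1) (by omega)
          refine ⟨l, hl, hI, ?_⟩
          have := Ch.skip (ru_left R hr hw) hc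
          rw [eL, List.nil_append] at this
          exact this
        · rw [pow_succ] at hm
          rcases Nat.lt_or_ge u.length (2 ^ m) with hlt | hge
          · obtain ⟨l, hl, hI, hc⟩ := ihw htail m (by omega)
            refine ⟨(nonterminal r.input :: α) :: l, by simp [hl], ?_, ?_⟩
            · intro β hβ
              rcases List.mem_cons.1 hβ with rfl | hβ
              · exact hα
              · exact hI β hβ
            · have := Ch.mark (ru_right R α hr hu) (by simp; omega) hc
              rw [eR, List.append_nil] at this
              exact this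
          · obtain ⟨l, hl, hI, hc⟩ := ihu hout m hge
            refine ⟨(nonterminal r.input :: α) :: l, by simp [hl], ?_, ?_⟩
            · intro β hβ
              rcases List.mem_cons.1 hβ with rfl | hβ
              · exact hα
              · exact hI β hβ
            · have := Ch.mark (ru_left R hr hw) (by simp; omega) hc
              rw [eL, List.nil_append] at this
              exact this

private theorem ch_du (R : Set (ContextFreeRule T N)) {l : List (List (Symbol T N))}
    {U : Set (List (Symbol T N))} {α : List (Symbol T N)} {w : List T} (h : Ch R l U α w) :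
    DU R U α w := by
  induction h with
  | nil h => exact h
  | skip h _ ih => exact h _ _ ih
  | mark h _ _ ih => exact h _ _ ih

open Classical in
private theorem ch_loops (R : Set (ContextFreeRule T N)) (β : List (Symbol T N))
    {l : List (List (Symbol T N))} {U : Set (List (Symbol T N))} {α : List (Symbol T N)}
    {w : List T} (h : Ch R l U α w) : ∀ k : ℕ, k + 1 ≤ (l : Multiset (List (Symbol T N))).count β →
      ∃ W U' u x z, w = u ++ x ++ z ∧ U = W ∪ U' ∧ RU R W α u z β ∧ Lp R β k U' x := by
  induction h with
  | nil h =>
    intro k hk
    simp at hk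
  | @skip l W U α α' u z w h _ ih =>
    intro k hk
    obtain ⟨W1, U1, u1, x, z1, rfl, rfl, hr, hl⟩ := ih k hk
    exact ⟨W ∪ W1, U1, u ++ u1, x, z1 ++ z, by simp [List.append_assoc],
      (Set.union_assoc _ _ _).symm, ru_comp R h hr, hl⟩
  | @mark l W U α α' u z w h hn hc ih =>
    intro k hk
    by_cases hαβ : α = β
    · subst hαβ
      rcases k with - | k
      · exact ⟨∅, W ∪ U, [], u ++ w ++ z, [], by simp, by simp, ru_nil R α,
          Lp.zero (h _ _ (ch_du R hc))⟩
      · rw [← Multiset.cons_coe, Multiset.count_cons_self] at hk
        obtain ⟨W1, U1, u1, x, z1, rfl, rfl, hr, hl⟩ := ih k (by omega)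
        refine ⟨∅, (W ∪ W1) ∪ U1, [], (u ++ u1) ++ x ++ (z1 ++ z), [],
          by simp [List.append_assoc], by simp [Set.union_assoc], ru_nil R α, ?_⟩
        refine Lp.succ (ru_comp R h hr) ?_ hl
        simp only [List.length_append]
        omega
    · rw [← Multiset.cons_coe, Multiset.count_cons_of_ne (Ne.symm hαβ)] at hk
      obtain ⟨W1, U1, u1, x, z1, rfl, rfl, hr, hl⟩ := ih k hk
      exact ⟨W ∪ W1, U1, u ++ u1, x, z1 ++ z, by simp [List.append_assoc],
        (Set.union_assoc _ _ _).symm, ru_comp R h hr, hl⟩

open Classical in
theorem hPKL : StPKL := by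
  intro T N R X hR k
  have hI := sts_finite R X hR
  refine ⟨k * hI.toFinset.card + 1, fun U α w hd hα hw => ?_⟩
  obtain ⟨l, hl, hlI, hc⟩ := exists_chain R X hd hα _ hw
  have hpg : ∃ β, k + 1 ≤ (l : Multiset (List (Symbol T N))).count β := by
    by_contra hcon
    push Not at hcon
    have h1 : ∑ β ∈ hI.toFinset, (l : Multiset (List (Symbol T N))).count β =
        Multiset.card (l : Multiset (List (Symbol T N))) :=
      Multiset.sum_count_eq_card fun β hβ => by
        rw [Set.Finite.mem_toFinset]
        exact hlI β (by simpa using hβ)
    have h2 : ∑ β ∈ hI.toFinset, (l : Multiset (List (Symbol T N))).count β ≤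
        ∑ β ∈ hI.toFinset, k := by
      refine Finset.sum_le_sum fun β _ => ?_
      have := hcon β
      omega
    rw [h1, Multiset.coe_card, hl, Finset.sum_const, smul_eq_mul, mul_comm] at h2
    omega
  obtain ⟨β, hβ⟩ := hpg
  exact ⟨β, ch_loops R β hc k hβ⟩

end Pool.Agent.Helper55.TW
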