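import Pool.Agent.Helper31.TW.St2

/-!
# Project TW, module REG: the value is the same in all regions not separated by walls with a jump
-/

set_option autoImplicit false

namespace Pool.Agent.Helper55.TW

open Pool.Agent.Helper31.TW

variable {n : ℕ}

private theorem dot_add (α x y : Fin n → ℤ) : dot α (x + y) = dot α x + dot α y := by
  simp [dot, mul_add, Finset.sum_add_distrib]

private theorem dot_smul (α : Fin n → ℤ) (s : ℤ) (x : Fin n → ℤ) :
    dot α (s • x) = s * dot α x := by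
  simp only [dot, Pi.smul_apply, smul_eq_mul, Finset.mul_sum]
  exact Finset.sum_congr rfl fun i _ => by ring

private theorem dot_neg (α x : Fin n → ℤ) : dot α (-x) = -dot α x := by
  simp [dot]

private theorem dot_zero (x : Fin n → ℤ) : dot 0 x = 0 := by
  simp [dot]

private theorem dot_comb (a b : ℤ) (α β x : Fin n → ℤ) :
    dot (a • α - b • β) x = a * dot α x - b * dot β x := by
  simp only [dot, Pi.sub_apply, Pi.smul_apply, smul_eq_mul, Finset.mul_sum,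
    ← Finset.sum_sub_distrib]
  exact Finset.sum_congr rfl fun i _ => by ring

private theorem sgn_of_mul_pos {a b : ℤ} (h : 0 < a * b) : Int.sign a = Int.sign b := by
  rcases pos_and_pos_or_neg_and_neg_of_mul_pos h with ⟨h1, h2⟩ | ⟨h1, h2⟩
  · rw [Int.sign_eq_one_of_pos h1, Int.sign_eq_one_of_pos h2]
  · rw [Int.sign_eq_neg_one_of_neg h1, Int.sign_eq_neg_one_of_neg h2]

private theorem mul_pos_of_sgn {a b : ℤ} (ha : a ≠ 0) (h : Int.sign a = Int.sign b) :
    0 < a * b := by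
  rcases lt_or_gt_of_ne ha with h1 | h1
  · rw [Int.sign_eq_neg_one_of_neg h1] at h
    exact mul_pos_of_neg_of_neg h1 (Int.sign_eq_neg_one_iff_neg.1 h.symm)
  · rw [Int.sign_eq_one_of_pos h1] at h
    exact mul_pos h1 (Int.sign_eq_one_iff_pos.1 h.symm)

private theorem sgn_trans {p a b : ℤ} (h1 : 0 < p * a) (h2 : 0 < a * b) : 0 < p * b := by
  rcases pos_and_pos_or_neg_and_neg_of_mul_pos h1 with ⟨h3, h4⟩ | ⟨h3, h4⟩ <;>
    rcases pos_and_pos_or_neg_and_neg_of_mul_pos h2 with ⟨h5, h6⟩ | ⟨h5, h6⟩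
  · exact mul_pos h3 h6
  · exact absurd h4 (not_lt.2 h5.le)
  · exact absurd h4 (not_lt.2 h5.le)
  · exact mul_pos_of_neg_of_neg h3 h6

private theorem sgn_trans_neg {p a b : ℤ} (h1 : 0 < p * a) (h2 : p * b < 0) : a * b < 0 := by
  rcases pos_and_pos_or_neg_and_neg_of_mul_pos h1 with ⟨h3, h4⟩ | ⟨h3, h4⟩
  · exact mul_neg_of_pos_of_neg h4 (neg_of_mul_neg_right h2 h3.le)
  · exact mul_neg_of_neg_of_pos h4 (pos_of_mul_neg_right h2 h3.le)

private theorem sgn_neg {a b : ℤ} (h : a * b < 0) : (a < 0 ∧ 0 < b) ∨ (0 < a ∧ b < 0) := by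
  rcases lt_trichotomy a 0 with h1 | h1 | h1
  · exact Or.inl ⟨h1, pos_of_mul_neg_right h h1.le⟩
  · rw [h1, zero_mul] at h
    exact absurd h (lt_irrefl _)
  · exact Or.inr ⟨h1, neg_of_mul_neg_right h h1.le⟩

private theorem cross_zero {a b c d : ℤ} (h1 : a * b < 0) (h2 : c * d < 0)
    (h : |a| * |d| = |c| * |b|) : b * c - d * a = 0 := by
  rcases sgn_neg h1 with ⟨a1, b1⟩ | ⟨a1, b1⟩ <;> rcases sgn_neg h2 with ⟨a2, b2⟩ | ⟨a2, b2⟩
  · rw [abs_of_neg a1, abs_of_neg a2, abs_of_pos b1, abs_of_pos b2] at h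
    linarith
  · rw [abs_of_neg a1, abs_of_pos a2, abs_of_pos b1, abs_of_neg b2] at h
    linarith
  · rw [abs_of_pos a1, abs_of_neg a2, abs_of_neg b1, abs_of_pos b2] at h
    linarith
  · rw [abs_of_pos a1, abs_of_pos a2, abs_of_neg b1, abs_of_neg b2] at h
    linarith

private theorem wall_zero {a b : ℤ} (h : a * b < 0) : |b| * a + |a| * b = 0 := by
  rcases sgn_neg h with ⟨a1, b1⟩ | ⟨a1, b1⟩
  · rw [abs_of_neg a1, abs_of_pos b1]
    ring
  · rw [abs_of_pos a1, abs_of_neg b1]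
    ring

private theorem seg_pos {A B c d : ℤ} (hA : 0 < A) (hB : 0 < B) (hc : c ≠ 0) (hd : d ≠ 0)
    (h : c * d < 0 → B * |d| < A * |c|) : 0 < (A * c + B * d) * c := by
  have c0 : 0 < c * c := mul_self_pos.2 hc
  rcases lt_or_gt_of_ne (mul_ne_zero hc hd) with hneg | hpos
  · have h1 := h hneg
    have c1 : |c| * |d| = -(c * d) := by rw [← abs_mul, abs_of_neg hneg]
    have c2 : |c| * |c| = c * c := abs_mul_abs_self _
    have c3 : 0 < |c| := abs_pos.2 hc
    have c4 := mul_lt_mul_of_pos_right h1 c3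
    have c5 : B * |d| * |c| = B * (|c| * |d|) := by ring
    have c6 : A * |c| * |c| = A * (|c| * |c|) := by ring
    rw [c5, c6, c1, c2] at c4
    have c7 : (A * c + B * d) * c = A * (c * c) - B * -(c * d) := by ring
    rw [c7]
    linarith
  · have c7 : (A * c + B * d) * c = A * (c * c) + B * (c * d) := by ring
    rw [c7]
    exact add_pos (mul_pos hA c0) (mul_pos hB hpos)

private theorem push_pos {N c a b : ℤ} (h : 0 < c * a) (hb : |b| < N) :
    0 < (N * c + b) * a := by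
  have hN : 0 < N := lt_of_le_of_lt (abs_nonneg b) hb
  obtain ⟨b1, b2⟩ := abs_lt.1 hb
  rcases pos_and_pos_or_neg_and_neg_of_mul_pos h with ⟨h3, h4⟩ | ⟨h3, h4⟩
  · refine mul_pos ?_ h4
    have h5 : N * 1 ≤ N * c := mul_le_mul_of_nonneg_left (by omega) hN.le
    omega
  · refine mul_pos_of_neg_of_neg ?_ h4
    have h5 : N * c ≤ N * (-1) := mul_le_mul_of_nonneg_left (by omega) hN.le
    omega

private theorem left_pos {N c a : ℤ} (hN : 0 < N) (h : 0 < c * a) (ha : a ≠ 0) :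
    0 < a * (N * c + a) := by
  have h1 : a * (N * c + a) = N * (c * a) + a * a := by ring
  rw [h1]
  exact add_pos (mul_pos hN h) (mul_self_pos.2 ha)

private theorem gen_w (𝓐 : Finset (Fin n → ℤ)) (hN2 : ∀ γ ∈ 𝓐, ∀ γ' ∈ 𝓐, γ ≠ γ' →
      ∃ w : Fin n → ℤ, dot γ w = 0 ∧ dot γ' w ≠ 0) (hGVE : StGVE) (y' : Fin n → ℤ)
    (h0 : ∀ γ ∈ 𝓐, dot γ y' ≠ 0) :
    ∃ w : Fin n → ℤ, ∀ γ ∈ 𝓐, ∀ γ' ∈ 𝓐, γ ≠ γ' →
      dot (dot γ' y' • γ - dot γ y' • γ') w ≠ 0 := by
  classical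
  obtain ⟨w, -, hw⟩ := hGVE n 0
    (((𝓐 ×ˢ 𝓐).filter fun p => p.1 ≠ p.2).image fun p =>
      dot p.2 y' • p.1 - dot p.1 y' • p.2) (by
    intro β hβ
    obtain ⟨p, hp, rfl⟩ := Finset.mem_image.1 hβ
    obtain ⟨hp1, hp2⟩ := Finset.mem_filter.1 hp
    obtain ⟨hpa, hpb⟩ := Finset.mem_product.1 hp1
    obtain ⟨w, hw1, hw2⟩ := hN2 p.2 hpb p.1 hpa (Ne.symm hp2)
    refine ⟨w, dot_zero w, ?_⟩
    rw [dot_comb, hw1, mul_zero, sub_zero]
    exact mul_ne_zero (h0 _ hpb) hw2)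
  refine ⟨w, fun γ hγ γ' hγ' hne => hw _ ?_⟩
  rw [Finset.mem_image]
  exact ⟨(γ, γ'), Finset.mem_filter.2 ⟨Finset.mem_product.2 ⟨hγ, hγ'⟩, hne⟩, rfl⟩

private theorem bdd (𝓐 : Finset (Fin n → ℤ)) (f : (Fin n → ℤ) → (Fin n → ℤ) → ℤ) :
    ∃ B : ℕ, ∀ γ ∈ 𝓐, ∀ γ' ∈ 𝓐, f γ γ' ≤ (B : ℤ) := by
  classical
  obtain ⟨B, hB⟩ := ((𝓐 ×ˢ 𝓐).image fun p => (f p.1 p.2).toNat).exists_le
  refine ⟨B, fun γ hγ γ' hγ' => ?_⟩
  have := hB (f γ γ').toNat (Finset.mem_image.2 ⟨(γ, γ'), Finset.mem_product.2 ⟨hγ, hγ'⟩, rfl⟩)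
  omega

private theorem far_ne {N a b : ℤ} (hb : b ≠ 0) (hN : |b| < N) : N * a + b ≠ 0 := by
  have hN' : 0 < N := lt_of_le_of_lt (abs_nonneg b) hN
  obtain ⟨b1, b2⟩ := abs_lt.1 hN
  intro h
  rcases lt_trichotomy a 0 with h1 | h1 | h1
  · have h5 : N * a ≤ N * (-1) := mul_le_mul_of_nonneg_left (by omega) hN'.le
    omega
  · rw [h1, mul_zero, zero_add] at h
    exact hb h
  · have h5 : N * 1 ≤ N * a := mul_le_mul_of_nonneg_left (by omega) hN'.le
    omega

/-- one wall without a jump: the limits on the two sides agree -/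
private theorem one_wall (M : (Fin n → ℤ) → Prop)
    (γ z u x y y' : Fin n → ℤ)
    (hz : ∀ a b : Fin n → ℤ, dot γ a = dot γ b → (Ev M a z ↔ Ev M b z))
    (hu : dot γ u = 1)
    (hlim : ∀ w : Fin n → ℤ, ∃ s0 : ℕ, ∀ s s' : ℤ, (s0 : ℤ) ≤ s → (s0 : ℤ) ≤ s' →
      (Ev M (0 + s • w) z ↔ Ev M (0 + s' • w) z))
    (hj : ∃ s0 : ℕ, ∀ s : ℤ, (s0 : ℤ) ≤ s → (Ev M (s • u) z ↔ Ev M (-(s • u)) z))
    (hy : 0 < dot γ y) (hy' : dot γ y' < 0) :
    ∃ s0 : ℕ, ∀ s s' : ℤ, (s0 : ℤ) ≤ s → (s0 : ℤ) ≤ s' →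
      (Ev M (x + s • y) z ↔ Ev M (x + s' • y') z) := by
  obtain ⟨s1, h1⟩ := hlim u
  obtain ⟨s2, h2⟩ := hlim (-u)
  obtain ⟨s3, h3⟩ := hj
  have hT : ∀ t : ℤ, (s1 : ℤ) + s2 + s3 ≤ t → ∀ t' : ℤ, (s1 : ℤ) + s2 + s3 ≤ t' →
      (Ev M (t • u) z ↔ Ev M (-(t' • u)) z) := by
    intro t ht t' ht'
    have a1 := h1 t ((s1 : ℤ) + s2 + s3) (by omega) (by omega)
    have a2 := h2 ((s1 : ℤ) + s2 + s3) t' (by omega) (by omega)
    have a3 := h3 ((s1 : ℤ) + s2 + s3) (by omega)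
    rw [zero_add, zero_add] at a1 a2
    rw [smul_neg, smul_neg] at a2
    exact a1.trans (a3.trans a2)
  have hb : ∃ b : ℕ, |dot γ x| ≤ (b : ℤ) := ⟨(dot γ x).natAbs, by simp⟩
  obtain ⟨b, hb⟩ := hb
  have hb' := abs_le.1 hb
  refine ⟨s1 + s2 + s3 + b, fun s s' hs hs' => ?_⟩
  push_cast at hs hs'
  have e1 : Ev M (x + s • y) z ↔ Ev M ((dot γ x + s * dot γ y) • u) z := by
    apply hz
    rw [dot_add, dot_smul, dot_smul, hu, mul_one]
  have e2 : Ev M (x + s' • y') z ↔ Ev M (-((-(dot γ x + s' * dot γ y')) • u)) z := by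
    apply hz
    rw [dot_add, dot_smul, dot_neg, dot_smul, hu, mul_one, neg_neg]
  rw [e1, e2]
  apply hT
  · nlinarith
  · nlinarith

theorem hREG (hEV1 : StEV1) (hEV2 : StEV2) (hGVE : StGVE) (hNEA : StNEA) : StREG := by
  classical
  intro n M 𝓐 K hD hN y y' hy hy' h0 hJ
  obtain ⟨-, -, e3⟩ := hEV1 n M 𝓐 K hD
  obtain ⟨f1, f2⟩ := hEV2 n M 𝓐 K hD
  have e3' : ∀ x x' y1 y2 : Fin n → ℤ, (∀ γ ∈ 𝓐, 0 < dot γ y1 * dot γ y2) →
      (Ev M x y1 ↔ Ev M x' y2) := fun x x' y1 y2 h => by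
    refine e3 x x' y1 y2 (fun α hα => sgn_of_mul_pos (h α hα)) (fun α hα hz => ?_)
    have := h α hα
    rw [hz, zero_mul] at this
    exact absurd this (lt_irrefl _)
  -- the induction
  have key : ∀ (m : ℕ) (y : Fin n → ℤ), Pos y → (∀ γ ∈ 𝓐, dot γ y ≠ 0) →
      (∀ γ ∈ 𝓐, ∀ γ' ∈ 𝓐, γ ≠ γ' → dot γ' y' * dot γ y - dot γ y' * dot γ' y ≠ 0) →
      (∀ γ ∈ 𝓐, Jmp M 𝓐 γ → 0 < dot γ y * dot γ y') →
      (𝓐.filter fun γ => dot γ y * dot γ y' < 0).card ≤ m →
      ∀ x : Fin n → ℤ, (Ev M x y ↔ Ev M x y') := by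
    intro m
    induction m with
    | zero =>
      intro y hy hy0 _ _ hc x
      have hc' := Finset.card_eq_zero.1 (Nat.le_zero.1 hc)
      refine e3' x x y y' fun γ hγ => ?_
      have h1 : ¬ dot γ y * dot γ y' < 0 := fun h => by
        have : γ ∈ 𝓐.filter fun γ => dot γ y * dot γ y' < 0 := Finset.mem_filter.2 ⟨hγ, h⟩
        rw [hc'] at this
        simp at this
      have h2 : dot γ y * dot γ y' ≠ 0 := mul_ne_zero (hy0 γ hγ) (h0 γ hγ).2
      omega
    | succ m ih =>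
      intro y hy hy0 hG hJ' hc x
      by_cases hemp : (𝓐.filter fun γ => dot γ y * dot γ y' < 0).Nonempty
      swap
      · refine ih y hy hy0 hG hJ' ?_ x
        rw [Finset.not_nonempty_iff_eq_empty.1 hemp]
        simp
      obtain ⟨g, hg, hmin⟩ := Finset.exists_min_image _
        (fun γ : Fin n → ℤ => ((|dot γ y| : ℤ) : ℚ) / ((|dot γ y'| : ℤ) : ℚ)) hemp
      obtain ⟨hgA, hgn⟩ := Finset.mem_filter.1 hg
      have hg1 : dot g y ≠ 0 := hy0 g hgA
      have hg2 : dot g y' ≠ 0 := (h0 g hgA).2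
      have hA : 0 < |dot g y'| := abs_pos.2 hg2
      have hB : 0 < |dot g y| := abs_pos.2 hg1
      have hstrict : ∀ γ ∈ 𝓐, γ ≠ g → dot γ y * dot γ y' < 0 →
          |dot g y| * |dot γ y'| < |dot g y'| * |dot γ y| := by
        intro γ hγ hne hneg
        have h1 := hmin γ (Finset.mem_filter.2 ⟨hγ, hneg⟩)
        have hγ2 : 0 < |dot γ y'| := abs_pos.2 (h0 γ hγ).2
        rw [div_le_div_iff₀ (by exact_mod_cast hA) (by exact_mod_cast hγ2)] at h1
        have h2 : |dot g y| * |dot γ y'| ≤ |dot γ y| * |dot g y'| := by exact_mod_cast h1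
        rcases lt_or_eq_of_le h2 with h3 | h3
        · rw [mul_comm |dot g y'|]
          exact h3
        · exact absurd (cross_zero hgn hneg h3) (hG γ hγ g hgA hne)
      -- the point on the wall
      obtain ⟨z, hz⟩ : ∃ z : Fin n → ℤ, z = |dot g y'| • y + |dot g y| • y' := ⟨_, rfl⟩
      have hzpos : Pos z := by
        intro i
        rw [hz]
        have := hy i
        have := hy' i
        simp only [Pi.add_apply, Pi.smul_apply, smul_eq_mul]
        positivity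
      have hdz : ∀ γ : Fin n → ℤ, dot γ z = |dot g y'| * dot γ y + |dot g y| * dot γ y' := by
        intro γ
        rw [hz, dot_add, dot_smul, dot_smul]
      have hgz : dot g z = 0 := by
        rw [hdz]
        exact wall_zero hgn
      have hsz : ∀ γ ∈ 𝓐, γ ≠ g → 0 < dot γ z * dot γ y := by
        intro γ hγ hne
        rw [hdz]
        exact seg_pos hA hB (hy0 γ hγ) (h0 γ hγ).2 (hstrict γ hγ hne)
      have hgen : Gen 𝓐 g z := ⟨hzpos, hgz, fun β hβ hne h => by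
        have := hsz β hβ hne
        rw [h, zero_mul] at this
        exact lt_irrefl _ this⟩
      have hnj : ¬ Jmp M 𝓐 g := fun h => by
        have := hJ' g hgA h
        omega
      obtain ⟨u, hu⟩ := hN.1 g hgA
      have hzz : ∀ a b : Fin n → ℤ, dot g a = dot g b → (Ev M a z ↔ Ev M b z) := by
        intro a b hab
        refine e3 a b z z (fun _ _ => rfl) (fun α hα hα0 => ?_)
        by_cases h : α = g
        · rw [h]; exact hab
        · exact absurd hα0 (hgen.2.2 α hα h)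
      have hj : ∃ s0 : ℕ, ∀ s : ℤ, (s0 : ℤ) ≤ s → (Ev M (s • u) z ↔ Ev M (-(s • u)) z) := by
        by_contra hcon
        push Not at hcon
        apply hnj
        refine ⟨z, u, hgen, hu, fun s0 => ?_⟩
        obtain ⟨s, hs, h⟩ := hcon s0
        refine ⟨s, hs, fun hiff => ?_⟩
        rcases h with h | h
        · exact h.2 (hiff.1 h.1)
        · exact h.1 (hiff.2 h.2)
      obtain ⟨N1, hN1⟩ := f1 z y
      obtain ⟨N2, hN2⟩ := f1 z y'
      -- the number `N`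
      obtain ⟨B, hB'⟩ := bdd 𝓐 fun γ _ => |dot γ y'|
      have hsum : ∀ γ ∈ 𝓐, |dot γ y'| ≤ (B : ℤ) := fun γ hγ => hB' γ hγ γ hγ
      obtain ⟨N, hNdef⟩ : ∃ N : ℤ, N = (N1 : ℤ) + N2 + B + 1 := ⟨_, rfl⟩
      have hNpos : 0 < N := by omega
      have hstep : Ev M x (N • z + y) ↔ Ev M x (N • z + y') := by
        obtain ⟨s1, h1⟩ := hN1 N (by omega) x
        obtain ⟨s2, h2⟩ := hN2 N (by omega) x
        have hlim : ∀ w : Fin n → ℤ, ∃ s0 : ℕ, ∀ s s' : ℤ, (s0 : ℤ) ≤ s → (s0 : ℤ) ≤ s' →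
            (Ev M (0 + s • w) z ↔ Ev M (0 + s' • w) z) := fun w => f2 0 z w
        rcases sgn_neg hgn with ⟨a1, b1⟩ | ⟨a1, b1⟩
        · obtain ⟨s3, h3⟩ := one_wall M g z u x y' y hzz hu hlim hj b1 a1
          have c1 := h1 ((s1 : ℤ) + s2 + s3) (by omega)
          have c2 := h2 ((s1 : ℤ) + s2 + s3) (by omega)
          have c3 := h3 ((s1 : ℤ) + s2 + s3) ((s1 : ℤ) + s2 + s3) (by omega) (by omega)
          exact c1.symm.trans (c3.symm.trans c2)
        · obtain ⟨s3, h3⟩ := one_wall M g z u x y y' hzz hu hlim hj a1 b1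
          have c1 := h1 ((s1 : ℤ) + s2 + s3) (by omega)
          have c2 := h2 ((s1 : ℤ) + s2 + s3) (by omega)
          have c3 := h3 ((s1 : ℤ) + s2 + s3) ((s1 : ℤ) + s2 + s3) (by omega) (by omega)
          exact c1.symm.trans (c3.trans c2)
      have hleft : Ev M x y ↔ Ev M x (N • z + y) := by
        refine e3' x x y (N • z + y) fun γ hγ => ?_
        rw [dot_add, dot_smul]
        by_cases h : γ = g
        · rw [h, hgz, mul_zero, zero_add]
          exact mul_self_pos.2 hg1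
        · exact left_pos hNpos (hsz γ hγ h) (hy0 γ hγ)
      have hpos'' : Pos (N • z + y') := by
        intro i
        have := hzpos i
        have := hy' i
        simp only [Pi.add_apply, Pi.smul_apply, smul_eq_mul]
        positivity
      have hsgn : ∀ γ ∈ 𝓐, γ ≠ g → 0 < dot γ (N • z + y') * dot γ y := by
        intro γ hγ hne
        rw [dot_add, dot_smul]
        have c4 := hsum γ hγ
        exact push_pos (hsz γ hγ hne) (by omega)
      have hg'' : dot g (N • z + y') = dot g y' := by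
        rw [dot_add, dot_smul, hgz, mul_zero, zero_add]
      have hne'' : ∀ γ ∈ 𝓐, dot γ (N • z + y') ≠ 0 := by
        intro γ hγ h
        by_cases hγg : γ = g
        · rw [hγg, hg''] at h
          exact hg2 h
        · have := hsgn γ hγ hγg
          rw [h, zero_mul] at this
          exact lt_irrefl _ this
      rw [hleft, hstep]
      refine ih (N • z + y') hpos'' hne'' ?_ ?_ ?_ x
      · intro γ hγ γ' hγ' hne
        have h1 := hG γ hγ γ' hγ' hne
        have h2 : dot γ' y' * dot γ (N • z + y') - dot γ y' * dot γ' (N • z + y') =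
            N * |dot g y'| * (dot γ' y' * dot γ y - dot γ y' * dot γ' y) := by
          rw [dot_add, dot_add, dot_smul, dot_smul, hdz, hdz]
          ring
        rw [h2]
        exact mul_ne_zero (mul_ne_zero hNpos.ne' hA.ne') h1
      · intro γ hγ hjmp
        have hne : γ ≠ g := fun h => hnj (h ▸ hjmp)
        exact sgn_trans (hsgn γ hγ hne) (hJ' γ hγ hjmp)
      · have hsub : (𝓐.filter fun γ => dot γ (N • z + y') * dot γ y' < 0) ⊂
            (𝓐.filter fun γ => dot γ y * dot γ y' < 0) := by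
          refine (Finset.ssubset_iff_of_subset ?_).2 ⟨g, hg, ?_⟩
          · intro γ hγ
            obtain ⟨hγA, hγn⟩ := Finset.mem_filter.1 hγ
            refine Finset.mem_filter.2 ⟨hγA, ?_⟩
            by_cases hγg : γ = g
            · rw [hγg]; exact hgn
            · exact sgn_trans_neg (hsgn γ hγA hγg) hγn
          · intro h
            have := (Finset.mem_filter.1 h).2
            rw [hg''] at this
            exact absurd this (not_lt.2 (mul_self_nonneg _))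
        have := Finset.card_lt_card hsub
        omega
  -- reduction to the general position
  intro x x'
  obtain ⟨w, hw⟩ := gen_w 𝓐 hN.2 hGVE y' fun γ hγ => (h0 γ hγ).2
  obtain ⟨N0, hN0⟩ := hNEA n 𝓐 y w hy
  obtain ⟨B, hB⟩ := bdd 𝓐 fun γ γ' => |dot (dot γ' y' • γ - dot γ y' • γ') w|
  obtain ⟨hp, hs, -⟩ := hN0 ((N0 : ℤ) + B + 1) (by omega)
  have hmp : ∀ γ ∈ 𝓐, 0 < dot γ y * dot γ (((N0 : ℤ) + B + 1) • y + w) := fun γ hγ =>
    mul_pos_of_sgn (h0 γ hγ).1 (hs γ hγ (h0 γ hγ).1).symm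
  have hne : ∀ γ ∈ 𝓐, dot γ (((N0 : ℤ) + B + 1) • y + w) ≠ 0 := fun γ hγ h => by
    have := hmp γ hγ
    rw [h, mul_zero] at this
    exact lt_irrefl _ this
  rw [e3' x x' y (((N0 : ℤ) + B + 1) • y + w) hmp]
  refine key _ (((N0 : ℤ) + B + 1) • y + w) hp hne ?_ ?_ le_rfl x'
  · intro γ hγ γ' hγ' hγγ'
    have h1 := hw γ hγ γ' hγ' hγγ'
    have h2 : |dot (dot γ' y' • γ - dot γ y' • γ') w| ≤ (B : ℤ) := hB γ hγ γ' hγ'
    rw [← dot_comb, dot_add, dot_smul]
    exact far_ne h1 (by omega)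
  · intro γ hγ hjmp
    have h1 := hmp γ hγ
    have h2 := mul_pos_of_sgn (h0 γ hγ).1 (hJ γ hγ hjmp)
    rw [mul_comm] at h1
    exact sgn_trans h1 h2

end Pool.Agent.Helper55.TW
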