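import Pool.Agent.Helper78.TW.StA

/-!
Module CM of project TW (owner helper78): `T_3` and `T_5` commute on symbols.
-/

set_option autoImplicit false

namespace Pool.Agent.Helper55.TW

open Pool.Agent.Helper14.CV Pool.Agent.Helper28.WK Pool.Agent.Helper78.TW

/-- Translation invariance of a symbol of level `(0, n)`. -/
private lemma tr {R : Type} [AddCommGroup R] {n : ℕ} {G : ℤ → ℤ → R} (hG : Sym 0 n G)
    (p q t : ℤ) (hpq : p ≠ 0 ∨ q ≠ 0) : G (p + t * q) q = G p q := by
  obtain ⟨c, hc⟩ := hG.2 1 t 0 1 (by ring) (by simp) (by simp)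
  have h1 := hc 1 0 (Or.inl one_ne_zero)
  have h2 := hc p q hpq
  simp only [act] at h1 h2
  have e1 : G (1 * 1 + t * 0) (0 * 1 + 1 * 0) = G 1 0 := by congr 1 <;> ring
  have e2 : G (1 * p + t * q) (0 * p + 1 * q) = G (p + t * q) q := by congr 1 <;> ring
  rw [e1] at h1
  rw [e2] at h2
  have hc0 : c = 0 := by simpa using h1.symm
  rw [h2, hc0, add_zero]

/-- `T_3` and `T_5` commute away from the origin. -/
private lemma comm {R : Type} [AddCommGroup R] {n : ℕ} {G : ℤ → ℤ → R} (hG : Sym 0 n G)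
    (p q : ℤ) (hpq : p ≠ 0 ∨ q ≠ 0) :
    Tl 3 1 (Tl 5 1 G) p q = Tl 5 1 (Tl 3 1 G) p q := by
  have hne : ∀ k m t : ℤ, k ≠ 0 → m ≠ 0 → (k * p + t * q ≠ 0 ∨ m * q ≠ 0) := by
    intro k m t hk hm
    by_cases hq : q = 0
    · left
      subst hq
      have hp : p ≠ 0 := by simpa using hpq
      simpa using ⟨hk, hp⟩
    · exact Or.inr (mul_ne_zero hm hq)
  set F3 : ℤ → R := fun t => G (5 * p + t * q) (3 * q) with hF3
  set F5 : ℤ → R := fun t => G (3 * p + t * q) (5 * q) with hF5
  set F15 : ℤ → R := fun t => G (p + t * q) (15 * q) with hF15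
  have e3 : ∀ t : ℤ, F3 (t + 3) = F3 t := by
    intro t
    have h := tr hG (5 * p + t * q) (3 * q) 1 (hne 5 3 t (by norm_num) (by norm_num))
    simp only [hF3]
    rw [← h]
    congr 1
    ring
  have e5 : ∀ t : ℤ, F5 (t + 5) = F5 t := by
    intro t
    have h := tr hG (3 * p + t * q) (5 * q) 1 (hne 3 5 t (by norm_num) (by norm_num))
    simp only [hF5]
    rw [← h]
    congr 1
    ring
  have L : Tl 3 1 (Tl 5 1 G) p q = (G (15 * p) q + ∑ j ∈ Finset.range 5, F5 (j : ℤ)) +
      ∑ i ∈ Finset.range 3, (F3 (5 * (i : ℤ)) + ∑ j ∈ Finset.range 5, F15 ((i : ℤ) + 3 * (j : ℤ))) := by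
    unfold Tl
    refine congrArg₂ (· + ·) (congrArg₂ (· + ·) ?_ (Finset.sum_congr rfl fun j _ => ?_))
      (Finset.sum_congr rfl fun i _ => congrArg₂ (· + ·) ?_ (Finset.sum_congr rfl fun j _ => ?_))
    · congr 1
      push_cast
      ring
    · simp only [hF5]
      congr 1
      · push_cast
        ring
    · simp only [hF3]
      congr 1
      · push_cast
        ring
    · simp only [hF15]
      congr 1
      · push_cast
        ring
      · push_cast
        ring
  have Rr : Tl 5 1 (Tl 3 1 G) p q = (G (15 * p) q + ∑ i ∈ Finset.range 3, F3 (i : ℤ)) +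
      ∑ j ∈ Finset.range 5, (F5 (3 * (j : ℤ)) + ∑ i ∈ Finset.range 3, F15 ((j : ℤ) + 5 * (i : ℤ))) := by
    unfold Tl
    refine congrArg₂ (· + ·) (congrArg₂ (· + ·) ?_ (Finset.sum_congr rfl fun j _ => ?_))
      (Finset.sum_congr rfl fun i _ => congrArg₂ (· + ·) ?_ (Finset.sum_congr rfl fun j _ => ?_))
    · congr 1
      push_cast
      ring
    · simp only [hF3]
      congr 1
      · push_cast
        ring
    · simp only [hF5]
      congr 1
      · push_cast
        ring
    · simp only [hF15]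
      congr 1
      · push_cast
        ring
      · push_cast
        ring
  have a1 : F3 5 = F3 2 := by have := e3 2; norm_num at this; exact this
  have a2 : F3 10 = F3 1 := by
    have h1 := e3 7
    have h2 := e3 4
    have h3 := e3 1
    norm_num at h1 h2 h3
    rw [h1, h2, h3]
  have b1 : F5 6 = F5 1 := by have := e5 1; norm_num at this; exact this
  have b2 : F5 9 = F5 4 := by have := e5 4; norm_num at this; exact this
  have b3 : F5 12 = F5 2 := by
    have h1 := e5 7
    have h2 := e5 2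
    norm_num at h1 h2
    rw [h1, h2]
  rw [L, Rr]
  clear_value F3 F5 F15
  simp only [Finset.sum_range_succ, Finset.sum_range_zero, Nat.cast_zero, Nat.cast_one,
    Nat.cast_ofNat]
  norm_num
  rw [a1, a2, b1, b2, b3]
  abel

private lemma comm_iter (hk : StHkS) {R : Type} [AddCommGroup R] {n : ℕ} (j : ℕ) :
    ∀ G : ℤ → ℤ → R, Sym 0 n G →
      EqC ((Tl 5 1)^[j] (Tl 3 1 G)) (Tl 3 1 ((Tl 5 1)^[j] G)) := by
  induction j with
  | zero => intro G _; exact EqC.refl _
  | succ j ih =>
    intro G hG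
    rw [Function.iterate_succ_apply, Function.iterate_succ_apply]
    have h1 : EqC (Tl 5 1 (Tl 3 1 G)) (Tl 3 1 (Tl 5 1 G)) :=
      (EqC.of_eq (comm hG)).symm
    have h2 := h1.Tl_iter (l := 5) (by norm_num) 1 j
    have h3 := ih (Tl 5 1 G) (hk R _ n 5 G (by norm_num) (by norm_num) hG)
    exact h2.trans h3

theorem hCm : StCm := by
  intro hk R _ n G hG i j
  constructor
  · have h1 := comm_iter hk j G hG
    have h2 := h1.Tl_iter (l := 3) (by norm_num) 1 i
    have h3 := h2.diff (p := 1) (q := 0) (p' := 0) (q' := 1) (Or.inl one_ne_zero)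
      (Or.inr one_ne_zero)
    unfold ev
    rw [Function.iterate_succ_apply]
    exact h3
  · unfold ev
    rw [Function.iterate_succ_apply]

end Pool.Agent.Helper55.TW
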